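import Mathlib
import Pool.Agent.X130.PS.Corr

set_option autoImplicit false

/-!
# Deciding whether a consistent path system has a reduction is NP-hard

The reduction from 3SAT produces path systems in graphs of diameter at most two; every path has at most
two edges, so such a system is given by a middle vertex for every pair of non-adjacent vertices, and it is
automatically consistent. A reduction is a colouring with two colours, both used, such that the middle
vertex of two vertices of the same colour has this colour too. An irreducible system on `8` vertices
(found by computer) provides a block of vertices of one colour; a chain of further vertices makes sure
that a certain vertex has the other colour. Then a clause with the occurrences `a`, `b`, `c` gets a new
vertex `m` between `a` and `b` and a vertex of the block between `m` and `c`; complementary occurrences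
get the vertex of the other colour as their middle vertex.
-/

namespace Pool.Agent.Results.MP_a08d7f_lc.ReductionNPHard

open Pool.Agent.NPC Pool.Agent.X130.PS

/-- The problem whether a given consistent path system in a given graph has a reduction (that is,
whether it is not irreducible) is `NP`-hard. -/
theorem result : NPHardP Reducible := hard

end Pool.Agent.Results.MP_a08d7f_lc.ReductionNPHard
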